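import Mathlib
import Pool.Prelude.Def_F_8db9d53c
import Pool.Agent.Helper718_cops.Comp

/-!
# The cop number after adding edges that extend to automorphisms, and Meyniel's bound

Let `G` and `F` be graphs with the same vertices such that every edge `x y` of `F` extends to an
automorphism `β` of `G` with `β x = y` which moves the vertices of the component of `x` in `G` along
edges of `F` (or fixes them).  Then the cop number of a component of `G ∪ F` is at most the sum of
the largest cop number of a component of `G` and the largest cop number of a component of `F`.  For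
disjoint copies `G` of a graph, joined by the copies of the edges of another graph, this is the bound
`c(G □ H) ≤ c(G) + c(H)` of Tošić; it also contains Cayley graphs with a connection set `A ∪ B` such
that `B` normalises `A`, and the addition of the edges `x β(x)` for some automorphisms `β` to a graph.

With the bound `81 √n (log n + 1)` of the starting files this proves Meyniel's bound for all connected
graphs `G ∪ F` of this kind such that the components of `G` and of `F` have at most
`n / (log n + 1) ^ 2` vertices, for instance for the Cartesian products of two connected graphs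
with at least `(log n + 1) ^ 2` vertices each, and also if the components of `F` are that small and
`c(G) = O(√n)`.

Proof idea.  As many cops as needed for a component of `G` first get into the component of `G` of the
robber: the others play a game with a shadow of the robber in a component of `F`.  From then on they
imitate the moves of the robber along edges of `F` (by the automorphism `β`), so that they can
continue the game on `G` whenever he moves along an edge of `G` or does not move.  So this happens
only a bounded number of times, and between two such moves the other cops walk to the component of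
`F` in which the robber moves, and play there.
-/

set_option autoImplicit false
open N6ef48c04

namespace Pool.Agent.Results.MP_964892_co.AutomorphismEdges

/-- The connected component of the vertex `x` in the graph `G`, as a graph of its own. -/
def comp {V : Type} (G : SimpleGraph V) (x : V) : SimpleGraph {y : V // G.Reachable x y} :=
  G.comap Subtype.val

/-- Every edge `x y` of `F` extends to an automorphism `β` of `G` with `β x = y` such that every
vertex `z` of the component of `x` in `G` is fixed by `β` or joined to `β z` by an edge of `F`. -/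
def Extends {V : Type} (G F : SimpleGraph V) : Prop :=
  ∀ x y, F.Adj x y → ∃ β : G ≃g G, β x = y ∧ ∀ z, G.Reachable x z → z = β z ∨ F.Adj z (β z)

/-- Let the edges of `F` extend to automorphisms of `G` in the sense of `Extends`, and `n` be the
number of vertices.
(1) If all components of `G` have cop number at most `a`, and all components of `F` at most `b`,
then all components of `G ∪ F` have cop number at most `a + b`.
(2) If `G ∪ F` is connected, all components of `G` have cop number at most `a` and all components of
`F` have at most `n / (log n + 1) ^ 2` vertices, then `c(G ∪ F) ≤ a + 81 √n`.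
(3) If `G ∪ F` is connected and all components of `G` and of `F` have at most `n / (log n + 1) ^ 2`
vertices, then `c(G ∪ F) ≤ 162 √n`.
(4) If `G` and `H` are connected graphs with `p` and `q` vertices, where `p` and `q` are at least
`(log (p q) + 1) ^ 2`, then the Cartesian product has cop number at most `162 √(p q)`. -/
theorem result :
    (∀ (V : Type) [Finite V] (G F : SimpleGraph V), Extends G F → ∀ a b : ℕ,
      (∀ x, copNumber (comp G x) ≤ a) → (∀ x, copNumber (comp F x) ≤ b) →
      ∀ x, copNumber (comp (G ⊔ F) x) ≤ a + b) ∧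
    (∀ (V : Type) [Finite V] (G F : SimpleGraph V), Extends G F → (G ⊔ F).Connected →
      ∀ n : ℕ, Nat.card V = n →
      (∀ x, (Nat.card {y : V // F.Reachable x y} : ℝ) * (Real.log n + 1) ^ 2 ≤ n) →
      ∀ a : ℕ, (∀ x, copNumber (comp G x) ≤ a) → (copNumber (G ⊔ F) : ℝ) ≤ a + 81 * √(n : ℝ)) ∧
    (∀ (V : Type) [Finite V] (G F : SimpleGraph V), Extends G F → (G ⊔ F).Connected →
      ∀ n : ℕ, Nat.card V = n →
      (∀ x, (Nat.card {y : V // G.Reachable x y} : ℝ) * (Real.log n + 1) ^ 2 ≤ n) →
      (∀ x, (Nat.card {y : V // F.Reachable x y} : ℝ) * (Real.log n + 1) ^ 2 ≤ n) →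
      (copNumber (G ⊔ F) : ℝ) ≤ 162 * √(n : ℝ)) ∧
    (∀ (V W : Type) [Finite V] [Finite W] (G : SimpleGraph V) (H : SimpleGraph W),
      G.Connected → H.Connected → ∀ p q : ℕ, Nat.card V = p → Nat.card W = q →
      (Real.log (p * q) + 1) ^ 2 ≤ p → (Real.log (p * q) + 1) ^ 2 ≤ q →
      (copNumber (G.boxProd H) : ℝ) ≤ 162 * √((p : ℝ) * q)) := by
  have floor : ∀ (V : Type) [Finite V] (G F : SimpleGraph V), Extends G F → (G ⊔ F).Connected →
      ∀ n : ℕ, Nat.card V = n →
      (∀ x, (Nat.card {y : V // F.Reachable x y} : ℝ) * (Real.log n + 1) ^ 2 ≤ n) →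
      ∀ a : ℕ, (∀ x, copNumber (comp G x) ≤ a) →
      (copNumber (G ⊔ F) : ℝ) ≤ a + 81 * √(n : ℝ) := by
    intro V _ G F h hc n hn hF a ha
    have : Nonempty V := hc.nonempty
    have hn1 : (1 : ℝ) ≤ n := by
      rw [← hn]
      exact_mod_cast (Nat.card_pos (α := V))
    have h1 : ∀ x, copNumber (comp F x) ≤ ⌊81 * √(n : ℝ)⌋₊ := fun x =>
      Nat.le_floor (Helper718.Cops.comp_sqrt F x hn1 (hF x))
    have h2 : copNumber (G ⊔ F) ≤ a + ⌊81 * √(n : ℝ)⌋₊ :=
      Helper718.Cops.main_connected h hc ha h1
    have h3 : (⌊81 * √(n : ℝ)⌋₊ : ℝ) ≤ 81 * √(n : ℝ) := Nat.floor_le (by positivity)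
    have h4 : (copNumber (G ⊔ F) : ℝ) ≤ (a + ⌊81 * √(n : ℝ)⌋₊ : ℕ) := by exact_mod_cast h2
    push_cast at h4
    linarith
  refine ⟨fun V _ G F h a b ha hb x => Helper718.Cops.main_comp h ha hb x, floor, ?_, ?_⟩
  · intro V _ G F h hc n hn hG hF
    have : Nonempty V := hc.nonempty
    have hn1 : (1 : ℝ) ≤ n := by
      rw [← hn]
      exact_mod_cast (Nat.card_pos (α := V))
    have h1 : ∀ x, copNumber (comp G x) ≤ ⌊81 * √(n : ℝ)⌋₊ := fun x =>
      Nat.le_floor (Helper718.Cops.comp_sqrt G x hn1 (hG x))
    have h2 := floor V G F h hc n hn hF _ h1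
    have h3 : (⌊81 * √(n : ℝ)⌋₊ : ℝ) ≤ 81 * √(n : ℝ) := Nat.floor_le (by positivity)
    linarith
  · intro V W _ _ G H hG hH p q hp hq h1 h2
    classical
    have := Fintype.ofFinite V
    have := Fintype.ofFinite W
    have : Nonempty V := hG.nonempty
    have : Nonempty W := hH.nonempty
    have hp1 : (1 : ℝ) ≤ p := by
      rw [← hp]
      exact_mod_cast (Nat.card_pos (α := V))
    have hq1 : (1 : ℝ) ≤ q := by
      rw [← hq]
      exact_mod_cast (Nat.card_pos (α := W))
    have h3 : copNumber (G.boxProd H) ≤ copNumber G + copNumber H :=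
      Helper718.Cops.copNumber_le (Helper718.Cops.box_win hG hH
        (Helper718.Cops.win_copNumber G) (Helper718.Cops.win_copNumber H))
    have h4 := Pool.Agent.H594R2.Mey2.graph_bound G hG
    have h5 := Pool.Agent.H594R2.Mey2.graph_bound H hH
    rw [← Nat.card_eq_fintype_card, hp] at h4
    rw [← Nat.card_eq_fintype_card, hq] at h5
    set L := Real.log (p * q : ℝ) + 1 with hL
    have hL0 : 0 ≤ Real.log (p * q : ℝ) := Real.log_nonneg (by nlinarith)
    have h6 : Real.log p + 1 ≤ L := by
      have : Real.log (p : ℝ) ≤ Real.log (p * q : ℝ) := Real.log_le_log (by linarith) (by nlinarith)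
      linarith
    have h7 : Real.log q + 1 ≤ L := by
      have : Real.log (q : ℝ) ≤ Real.log (p * q : ℝ) := Real.log_le_log (by linarith) (by nlinarith)
      linarith
    have h8 : L ≤ √(q : ℝ) := by
      rw [← Real.sqrt_sq (show 0 ≤ L by linarith)]
      exact Real.sqrt_le_sqrt h2
    have h9 : L ≤ √(p : ℝ) := by
      rw [← Real.sqrt_sq (show 0 ≤ L by linarith)]
      exact Real.sqrt_le_sqrt h1
    have h10 : √((p : ℝ) * q) = √(p : ℝ) * √(q : ℝ) := Real.sqrt_mul (by linarith) _
    have hsp : 0 ≤ √(p : ℝ) := Real.sqrt_nonneg _
    have hsq : 0 ≤ √(q : ℝ) := Real.sqrt_nonneg _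
    have h11 : √(p : ℝ) * (Real.log p + 1) ≤ √(p : ℝ) * √(q : ℝ) :=
      mul_le_mul_of_nonneg_left (h6.trans h8) hsp
    have h12 : √(q : ℝ) * (Real.log q + 1) ≤ √(q : ℝ) * √(p : ℝ) :=
      mul_le_mul_of_nonneg_left (h7.trans h9) hsq
    have h13 : (copNumber (G.boxProd H) : ℝ) ≤ copNumber G + copNumber H := by exact_mod_cast h3
    rw [h10]
    calc (copNumber (G.boxProd H) : ℝ) ≤ copNumber G + copNumber H := h13
      _ ≤ 81 * √(p : ℝ) * (Real.log p + 1) + 81 * √(q : ℝ) * (Real.log q + 1) := add_le_add h4 h5
      _ = 81 * (√(p : ℝ) * (Real.log p + 1)) + 81 * (√(q : ℝ) * (Real.log q + 1)) := by ring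
      _ ≤ 81 * (√(p : ℝ) * √(q : ℝ)) + 81 * (√(q : ℝ) * √(p : ℝ)) := by linarith
      _ = 162 * (√(p : ℝ) * √(q : ℝ)) := by ring

end Pool.Agent.Results.MP_964892_co.AutomorphismEdges
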