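import Pool.Agent.Helper718_expand.Crit
import Pool.Agent.Y407.EX.Dense

set_option autoImplicit false

open scoped Classical

open N6ef48c04

namespace Pool.Agent.Results.MP_964892_co.BoundedDegreeExpanders

open Pool.Agent.Y649.EX Pool.Agent.Helper718.Exp

/-!
# Meyniel's bound for near-optimal expanders of every degree, bounded degree included

`nb G S` is the closed neighbourhood of the set `S` of vertices (the members of `S` and their
neighbours), so `(nb G)^[j] S` is the ball of radius `j` around `S`, and `(nb G)^[j] {v}` is the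
ball of radius `j` around the vertex `v`.

A graph is a near-optimal expander if the sizes of all balls, and of the balls around the subsets
of balls, are as in a random regular graph up to constant factors. The starting file
`NearOptimalExpanders` treats degrees at least `log n` (there two teams of cops are enough). Here
the degrees can be arbitrary, for instance bounded.

Proof idea. Let `b` bound the sizes of the balls of radius `t`, `b ≤ √n ≤ b β`, and let
`1 < s`, `s ^ 4 ≤ β`. For `j = 0, 1, ..., J`, team `j` consists of `O(√n s ^ (-j))` cops at random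
vertices; it has to guard, at time `t + j`, a set `U_j` of places where the robber can be at that
time if he has not been caught before. The cops of team `j` within distance `t + j + 1` of these
places are matched with the places; Hall's theorem with deficiency leaves out a set `F_j` of
`O(√n / (β (β / s) ^ j))` places, and `U_(j+1)` is the closed neighbourhood of `F_j`. The union
bound goes over the large subsets of the ball of radius `t + j` around the robber's vertex (for
the sets which do not expand to linear size) and over all the subsets of the possible sets `U_j`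
(for the others).
-/

/-- Some number `k ≤ K √n` of cops have starting vertices from which they catch the robber,
wherever he starts, within `m ≤ T` rounds; in particular the cop number is at most `K √n`. -/
def FewCops {V : Type} [Fintype V] (G : SimpleGraph V) (K T : ℝ) : Prop :=
  (copNumber G : ℝ) ≤ K * √(Fintype.card V : ℝ) ∧
    ∃ k m : ℕ, (k : ℝ) ≤ K * √(Fintype.card V : ℝ) ∧ (m : ℝ) ≤ T ∧
      ∃ c : Fin k → V, ∀ r : V, CopsCatchWithin G k m c r

theorem fewCops_of_winIn {V : Type} [Fintype V] (G : SimpleGraph V) (K T : ℝ) (k m : ℕ)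
    (hk : (k : ℝ) ≤ K * √(Fintype.card V : ℝ)) (hm : (m : ℝ) ≤ T) (h : WinIn G k m) :
    FewCops G K T :=
  ⟨le_trans (by exact_mod_cast copNumber_le_of_winIn G k m h) hk, k, m, hk, hm, h⟩

/-- the parameters of the proof -/
theorem params (β₀ A : ℝ) (hβ₀ : 1 < β₀) (hA : 1 ≤ A) :
    ∃ s κ : ℝ, 1 < s ∧ s ≤ 2 ∧ s ^ 4 ≤ β₀ ∧ 400 ≤ κ ∧ 96 * A ≤ κ ∧ 8 * A ≤ κ * (s - 1) ∧
      8 ≤ κ * (s - 1) := by
  have h1 : 1 < √β₀ := Real.lt_sqrt_of_sq_lt (by linarith)
  have h2 : 1 < √(√β₀) := Real.lt_sqrt_of_sq_lt (by linarith)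
  set s : ℝ := min 2 (√(√β₀)) with hs
  have hs1 : 1 < s := lt_min (by norm_num) h2
  have hs2 : s ≤ 2 := min_le_left _ _
  have hs4 : s ^ 4 ≤ β₀ := by
    calc s ^ 4 ≤ √(√β₀) ^ 4 := pow_le_pow_left₀ (by linarith) (min_le_right _ _) 4
      _ = (√(√β₀) ^ 2) ^ 2 := by ring
      _ = β₀ := by rw [Real.sq_sqrt (Real.sqrt_nonneg _), Real.sq_sqrt (by linarith)]
  have h3 : 0 < s - 1 := by linarith
  refine ⟨s, 400 * A / (s - 1), hs1, hs2, hs4, ?_, ?_, ?_, ?_⟩
  · rw [le_div_iff₀ h3]
    nlinarith
  · rw [le_div_iff₀ h3]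
    nlinarith
  · rw [div_mul_cancel₀ _ h3.ne']
    linarith
  · rw [div_mul_cancel₀ _ h3.ne']
    linarith

theorem large (N : ℕ) {V : Type} [Fintype V] (h : Fintype.card V < N) :
    (Fintype.card V : ℝ) ≤ √(N : ℝ) * √(Fintype.card V : ℝ) := by
  have h1 : (Fintype.card V : ℝ) = √(Fintype.card V : ℝ) * √(Fintype.card V : ℝ) :=
    (Real.mul_self_sqrt (Nat.cast_nonneg _)).symm
  have h2 : √(Fintype.card V : ℝ) ≤ √(N : ℝ) := Real.sqrt_le_sqrt (by exact_mod_cast h.le)
  have h3 := mul_le_mul_of_nonneg_right h2 (Real.sqrt_nonneg (Fintype.card V : ℝ))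
  linarith

/-- Meyniel's bound `c(G) ≤ K √n` holds for the following graphs on `n` vertices, where `K` only
depends on `β₀ > 1`, `A` and `c > 0`. Moreover the cops catch the robber quickly.
(1) There are a radius `t` and real numbers `β ≥ β₀` and `b ≥ max (1, log n)` with
`b ≤ √n ≤ b β` such that the balls of radius `t` have at most `b` vertices, closed neighbourhoods
have at most `A β` vertices, and, for all `v` and `j` and every set `S` of vertices within distance
`t + j` of `v`, the ball of radius `t + j + 1` around `S` has at least `c min (b β^(j+1) |S|, n)`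
vertices.
(2) There is a real number `β ≥ β₀` such that, for all `v` and `j`, the ball of radius `j` around
`v` has at most `A β^j` vertices, and, for every set `S` of vertices within distance `j` of `v`,
the ball of radius `j + 1` around `S` has at least `c min (β^(j+1) |S|, n)` vertices. -/
theorem result :
    (∀ β₀ A c : ℝ, 1 < β₀ → 0 < c → ∃ K : ℝ, ∀ (V : Type) [Fintype V] (G : SimpleGraph V)
      (t : ℕ) (b β : ℝ), β₀ ≤ β → 1 ≤ b → Real.log (Fintype.card V) ≤ b →
      b ≤ √(Fintype.card V : ℝ) → √(Fintype.card V : ℝ) ≤ b * β →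
      (∀ v : V, (((nb G)^[t] {v}).card : ℝ) ≤ b) →
      (∀ v : V, ((nb G {v}).card : ℝ) ≤ A * β) →
      (∀ (v : V) (j : ℕ), ∀ S ⊆ (nb G)^[t + j] {v},
        c * min (b * β ^ (j + 1) * S.card) (Fintype.card V) ≤ ((nb G)^[t + j + 1] S).card) →
      FewCops G K (t + K * (Real.log (Fintype.card V) + 1))) ∧
    (∀ β₀ A c : ℝ, 1 < β₀ → 0 < c → ∃ K : ℝ, ∀ (V : Type) [Fintype V] (G : SimpleGraph V)
      (β : ℝ), β₀ ≤ β →
      (∀ (v : V) (j : ℕ), (((nb G)^[j] {v}).card : ℝ) ≤ A * β ^ j) →
      (∀ (v : V) (j : ℕ), ∀ S ⊆ (nb G)^[j] {v},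
        c * min (β ^ (j + 1) * S.card) (Fintype.card V) ≤ ((nb G)^[j + 1] S).card) →
      FewCops G K (K * (Real.log (Fintype.card V) + 1))) := by
  have hD : S_DENSE := Pool.Agent.Y407.EX.dense Pool.Agent.Y421.EX.place
  -- an explicit form of (1)
  have main : ∀ β₀ A c : ℝ, 1 < β₀ → 0 < c → ∃ K : ℝ, 0 ≤ K ∧ ∀ (V : Type) [Fintype V]
      (G : SimpleGraph V) (t : ℕ) (b β : ℝ), β₀ ≤ β → 1 ≤ b →
      Real.log (Fintype.card V) ≤ b →
      b ≤ √(Fintype.card V : ℝ) → √(Fintype.card V : ℝ) ≤ b * β →
      (∀ v : V, (((nb G)^[t] {v}).card : ℝ) ≤ b) →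
      (∀ v : V, ((nb G {v}).card : ℝ) ≤ A * β) →
      (∀ (v : V) (j : ℕ), ∀ S ⊆ (nb G)^[t + j] {v},
        c * min (b * β ^ (j + 1) * S.card) (Fintype.card V) ≤ ((nb G)^[t + j + 1] S).card) →
      ∃ k T : ℕ, (k : ℝ) ≤ K * √(Fintype.card V : ℝ) ∧
        (T : ℝ) ≤ t + K * (Real.log (Fintype.card V) + 1) ∧ WinIn G k T := by
    intro β₀ A c hβ₀ hc
    obtain ⟨s, κ, hs1, hs2, hs4, hκ1, hκ2, hκ3, hκ4⟩ := params β₀ (max A 1) hβ₀ (le_max_right _ _)
    have hls : 0 < Real.log s := Real.log_pos hs1
    have hc' : 0 < min c 1 := lt_min hc one_pos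
    have hs1' : 0 < s - 1 := by linarith
    have hκ0 : 0 < κ := by linarith
    refine ⟨4 * κ / (min c 1 * (s - 1)) + (2 + 1 / Real.log s), by positivity, ?_⟩
    intro V _ G t b β hβ hb1 hlb hb hbβ hball hdeg hex
    have hV : 1 ≤ Fintype.card V := by
      by_contra hcon
      have h0 : Fintype.card V = 0 := by omega
      rw [h0] at hb
      simp only [Nat.cast_zero, Real.sqrt_zero] at hb
      linarith
    have hβ0 : 0 ≤ β := by linarith
    obtain ⟨k, T, hk, hT, hw⟩ := crit_gen s (max A 1) (min c 1) κ hs1 hs2 (le_max_right _ _) hc'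
      (min_le_right _ _) hκ1 hκ2 hκ3 hκ4 G b β t hV (hs4.trans hβ) hb1 hlb hb hbβ hball
      (fun v => (hdeg v).trans (mul_le_mul_of_nonneg_right (le_max_left _ _) hβ0))
      (fun v j S hS => by
        refine le_trans (mul_le_mul_of_nonneg_right (min_le_left _ _) ?_) (hex v j S hS)
        exact le_min (by positivity) (Nat.cast_nonneg _))
    have hn1 : (1 : ℝ) ≤ Fintype.card V := by exact_mod_cast hV
    have hlog : 0 ≤ Real.log (Fintype.card V) := Real.log_nonneg hn1
    have hr0 : 0 ≤ √(Fintype.card V : ℝ) := Real.sqrt_nonneg _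
    have h1 : 0 ≤ 4 * κ / (min c 1 * (s - 1)) := by positivity
    have h2 : 0 ≤ 1 / Real.log s := by positivity
    refine ⟨k, T, hk.trans (mul_le_mul_of_nonneg_right (by linarith) hr0), hT.trans ?_, hw⟩
    have h3 : Real.log (Fintype.card V) / Real.log s =
        1 / Real.log s * Real.log (Fintype.card V) := by ring
    rw [h3]
    nlinarith
  refine ⟨fun β₀ A c hβ₀ hc => ?_, fun β₀ A c hβ₀ hc => ?_⟩
  · obtain ⟨K, hK0, hK⟩ := main β₀ A c hβ₀ hc
    refine ⟨K, fun V _ G t b β hβ hb1 hlb hb hbβ hball hdeg hex => ?_⟩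
    obtain ⟨k, T, hk, hT, hw⟩ := hK V G t b β hβ hb1 hlb hb hbβ hball hdeg hex
    exact fewCops_of_winIn G K _ k T hk hT hw
  · -- WLOG `1 ≤ A` and `c ≤ 1`
    set A' : ℝ := max A 1 with hA'
    have hA1 : 1 ≤ A' := le_max_right _ _
    obtain ⟨K, hK0, hK⟩ := main β₀ A' (c / A') hβ₀ (by positivity)
    -- small graphs
    obtain ⟨N, hN⟩ : ∃ N : ℕ, ∀ n : ℕ, N ≤ n → Real.log (n : ℝ) ≤ √(√(n : ℝ)) := by
      have h1 := (isLittleO_log_rpow_atTop (show (0 : ℝ) < 1 / 4 by norm_num)).bound
        (show (0 : ℝ) < 1 by norm_num)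
      have h2 := tendsto_natCast_atTop_atTop (R := ℝ) |>.eventually h1
      obtain ⟨N, hN⟩ := Filter.eventually_atTop.1 h2
      refine ⟨N, fun n hn => ?_⟩
      have h3 := hN n hn
      rw [Real.norm_eq_abs, Real.norm_eq_abs, one_mul,
        abs_of_nonneg (Real.rpow_nonneg (Nat.cast_nonneg n) (1 / 4))] at h3
      refine (le_abs_self _).trans (h3.trans (le_of_eq ?_))
      rw [Real.sqrt_eq_rpow, Real.sqrt_eq_rpow, ← Real.rpow_mul (Nat.cast_nonneg n)]
      norm_num
    have hlβ : 0 < Real.log β₀ := Real.log_pos hβ₀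
    set K1 : ℝ := 16 / (c / A' ^ 2) + 3 with hK1
    have hK10 : 0 ≤ K1 := by positivity
    have hK30 : 0 ≤ √((N + 2 : ℕ) : ℝ) := Real.sqrt_nonneg _
    have hK20 : 0 ≤ 1 / Real.log β₀ := by positivity
    refine ⟨K + K1 + √((N + 2 : ℕ) : ℝ) + 1 / Real.log β₀, fun V _ G β hβ hball hex => ?_⟩
    have hr0 : 0 ≤ √(Fintype.card V : ℝ) := Real.sqrt_nonneg _
    have hlog0 : 0 ≤ Real.log (Fintype.card V) := Real.log_natCast_nonneg _
    set KK : ℝ := K + K1 + √((N + 2 : ℕ) : ℝ) + 1 / Real.log β₀ with hKK
    have hKK0 : 0 ≤ KK := by positivity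
    have hβ0 : 0 < β := by linarith
    have hβ1 : 1 < β := by linarith
    rcases lt_or_ge (Fintype.card V) (N + 2) with hsmall | hbig
    · refine fewCops_of_winIn G KK _ _ 0 ?_ (by push_cast; positivity) (winIn_card G)
      refine (large (N + 2) hsmall).trans (mul_le_mul_of_nonneg_right ?_ hr0)
      linarith
    · set n : ℝ := (Fintype.card V : ℝ) with hndef
      have hn2 : (2 : ℝ) ≤ n := by
        rw [hndef]
        exact_mod_cast (show 2 ≤ Fintype.card V by omega)
      have hball' : ∀ (v : V) (j : ℕ), (((nb G)^[j] {v}).card : ℝ) ≤ A' * β ^ j := fun v j =>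
        (hball v j).trans (mul_le_mul_of_nonneg_right (le_max_left _ _) (by positivity))
      have hr1 : 1 ≤ √n := Real.one_le_sqrt.2 (by linarith)
      rcases lt_or_ge (√n) (A' * β) with hdense | hsparse
      · -- all balls of radius `2` are large
        obtain ⟨k, hk, hw⟩ := hD V G (c / A' ^ 2) (by positivity) (by omega) (by
          intro v
          have h1 := hex v 1 {v} (by
            show {v} ⊆ nb G {v}
            exact subset_nb G {v})
          rw [Finset.card_singleton, Nat.cast_one, mul_one] at h1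
          refine le_trans ?_ h1
          have h2 : n ≤ A' ^ 2 * β ^ 2 := by
            rw [← mul_pow]
            calc n = √n ^ 2 := (Real.sq_sqrt (by linarith)).symm
              _ ≤ (A' * β) ^ 2 := pow_le_pow_left₀ (Real.sqrt_nonneg _) hdense.le 2
          have h3 : n / A' ^ 2 ≤ min (β ^ (1 + 1)) n := by
            refine le_min ?_ ?_
            · rw [div_le_iff₀ (by positivity)]
              exact h2.trans (le_of_eq (by ring))
            · exact div_le_self (by linarith) (one_le_pow₀ hA1)
          calc c / A' ^ 2 * n = c * (n / A' ^ 2) := by ring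
            _ ≤ c * min (β ^ (1 + 1)) n := mul_le_mul_of_nonneg_left h3 hc.le)
        rw [← hK1] at hk
        refine fewCops_of_winIn G KK _ k 2 (hk.trans (mul_le_mul_of_nonneg_right ?_ hr0)) ?_ hw
        · linarith
        · have h2 : 3 ≤ KK := by
            have : 0 ≤ 16 / (c / A' ^ 2) := by positivity
            linarith
          push_cast
          nlinarith
      · -- the critical radius
        have hA0 : 0 < A' := by linarith
        obtain ⟨t, ht1, ht2⟩ := exists_nat_pow_near (x := √n / A') (y := β)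
          (by rw [le_div_iff₀ hA0]; nlinarith) hβ1
        rw [le_div_iff₀ hA0] at ht1
        rw [div_lt_iff₀ hA0] at ht2
        have ht0 : 1 ≤ t := by
          by_contra hcon
          have h0 : t = 0 := by omega
          rw [h0] at ht2
          simp only [zero_add, pow_one] at ht2
          linarith
        have hbβ' : β ≤ A' * β ^ t := by
          have h1 : β ^ 1 ≤ β ^ t := pow_le_pow_right₀ hβ1.le ht0
          rw [pow_one] at h1
          nlinarith
        have hb1 : 1 ≤ A' * β ^ t := by linarith
        have hbb : √n ≤ A' * β ^ t * β := by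
          rw [pow_succ] at ht2
          nlinarith
        have hlb : Real.log n ≤ A' * β ^ t := by
          refine (hN (Fintype.card V) (by omega)).trans ?_
          refine Real.sqrt_le_iff.2 ⟨by linarith, ?_⟩
          calc √n ≤ A' * β ^ t * β := hbb
            _ ≤ A' * β ^ t * (A' * β ^ t) := mul_le_mul_of_nonneg_left hbβ' (by linarith)
            _ = (A' * β ^ t) ^ 2 := by ring
        obtain ⟨k, T, hk, hT, hw⟩ := hK V G t (A' * β ^ t) β hβ hb1 hlb (by linarith) hbb
          (fun v => hball' v t)
          (fun v => by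
            have h1 := hball' v 1
            rwa [pow_one] at h1)
          (fun v j S hS => by
            refine le_trans ?_ (hex v (t + j) S hS)
            have h1 : min (A' * β ^ t * β ^ (j + 1) * (S.card : ℝ)) n ≤
                A' * min (β ^ (t + j + 1) * (S.card : ℝ)) n := by
              rw [mul_min_of_nonneg _ _ hA0.le]
              refine min_le_min (le_of_eq ?_) (by nlinarith)
              ring
            calc c / A' * min (A' * β ^ t * β ^ (j + 1) * (S.card : ℝ)) n
                ≤ c / A' * (A' * min (β ^ (t + j + 1) * (S.card : ℝ)) n) :=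
                  mul_le_mul_of_nonneg_left h1 (by positivity)
              _ = c * min (β ^ (t + j + 1) * (S.card : ℝ)) n := by field_simp)
        refine fewCops_of_winIn G KK _ k T (hk.trans (mul_le_mul_of_nonneg_right ?_ hr0)) ?_ hw
        · linarith
        · have h1 : (t : ℝ) ≤ 1 / Real.log β₀ * (Real.log n + 1) := by
            have h2 : β₀ ^ t ≤ √n := by
              have h3 : β₀ ^ t ≤ β ^ t := pow_le_pow_left₀ (by linarith) hβ t
              have h4 : 0 < β ^ t := by positivity
              nlinarith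
            have h5 := Real.log_le_log (by positivity) h2
            rw [Real.log_pow, Real.log_sqrt (by linarith)] at h5
            have h6 : (t : ℝ) ≤ (Real.log n / 2) / Real.log β₀ := by
              rwa [le_div_iff₀ hlβ]
            calc (t : ℝ) ≤ (Real.log n / 2) / Real.log β₀ := h6
              _ = 1 / Real.log β₀ * (Real.log n / 2) := by ring
              _ ≤ 1 / Real.log β₀ * (Real.log n + 1) :=
                mul_le_mul_of_nonneg_left (by linarith) hK20
          have h7 : 0 ≤ K1 * (Real.log n + 1) := by positivity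
          have h8 : 0 ≤ √((N + 2 : ℕ) : ℝ) * (Real.log n + 1) := by positivity
          calc (T : ℝ) ≤ t + K * (Real.log n + 1) := hT
            _ ≤ 1 / Real.log β₀ * (Real.log n + 1) + K * (Real.log n + 1) := by linarith
            _ ≤ KK * (Real.log n + 1) := by
              rw [hKK]
              nlinarith

end Pool.Agent.Results.MP_964892_co.BoundedDegreeExpanders
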