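import Mathlib
import Pool.Prelude.Def_F_8db9d53c
import Pool.Agent.Helper718_cops.Cay

/-!
# Cayley graphs whose connection set is filtered by sets that normalise the previous ones

Let `S = A₀ ∪ A₁ ∪ … ∪ A_k` be a generating set of the finite group `Γ` such that
`y x y⁻¹ ∈ A_i` for all `x ∈ A_i`, `y ∈ A_j`, `i < j`.  Then the cop number of the Cayley graph of
`Γ` with connection set `S` is at most the sum of the cop numbers of the Cayley graphs of the
subgroups `⟨A_j⟩` with connection sets `A_j`.  If `y x y⁻¹ ∈ A_j` also for all `x, y ∈ A_j` then the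
summand of `A_j` is at most `2 √|⟨A_j⟩| + 1` (starting file `CayleyModNormal`), and it is at most
`81 √|⟨A_j⟩| (log |⟨A_j⟩| + 1)` in any case (starting file `SqrtLog`).  Hence Meyniel's bound
`c = O(√|Γ|)` holds for bounded `k` if the sets of the second kind generate subgroups of index at
least `(log |Γ| + 1) ^ 2`, for example for `S = A ∪ B` with a union `A` of conjugacy classes of `Γ`
and any set `B` that generates such a subgroup, and if each `A_j` is a union of conjugacy classes
of a subgroup `H_j`, where `Γ = H₀ ≥ H₁ ≥ … ≥ H_k`.  The case of one conjugation invariant set is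
in the starting files.

Proof idea.  A cop who is in the coset of `⟨A₀ ∪ … ∪ A_{j-1}⟩` of the robber imitates his moves with
generators from `A_j`; this does not disturb the game in the coset.  See
`Pool.Agent.Helper718_cops.Auto`.
-/

set_option autoImplicit false
open N6ef48c04

namespace Pool.Agent.Results.MP_964892_co.CayleyFiltrations

/-- The undirected Cayley graph of `Γ` with connection set `S`. -/
def cayley {Γ : Type} [Group Γ] (S : Set Γ) : SimpleGraph Γ where
  Adj x y := x ≠ y ∧ (x⁻¹ * y ∈ S ∨ y⁻¹ * x ∈ S)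
  symm := ⟨fun _ _ h => ⟨h.1.symm, h.2.symm⟩⟩
  loopless := ⟨fun _ h => h.1 rfl⟩

/-- The undirected Cayley graph of the subgroup generated by `A`, with connection set `A`. -/
def own {Γ : Type} [Group Γ] (A : Set Γ) : SimpleGraph (Subgroup.closure A) :=
  cayley {x : Subgroup.closure A | (x : Γ) ∈ A}

/-- Let `A₀, …, A_k` be subsets of the finite group `Γ` such that `y x y⁻¹ ∈ A_i` for `i < j`,
`x ∈ A_i`, `y ∈ A_j`, and such that the Cayley graph of `Γ` with connection set
`S = A₀ ∪ … ∪ A_k` is connected, and let `n = |Γ|`.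
(1) `c(Cay(Γ, S)) ≤ ∑ c(Cay(⟨A_j⟩, A_j))`.
Let `T` be a set of indices such that `y x y⁻¹ ∈ A_j` also for `x, y ∈ A_j`, `j ∈ T`.
(2) `c(Cay(Γ, S))` is at most the sum of the `2 √m_j + 1`, `j ∈ T`, and the
`81 √m_j (log m_j + 1)`, `j ∉ T`, where `m_j = |⟨A_j⟩|`.
(3) If `m_j ≤ n / (log n + 1) ^ 2` for all `j ∉ T`, then `c(Cay(Γ, S)) ≤ (3 t + 81 u) √n`, where
`t = |T|` and `u = k + 1 - t`. -/
theorem result (Γ : Type) [Group Γ] [Finite Γ] (k : ℕ) (A : Fin (k + 1) → Set Γ)
    (hA : ∀ i j, i < j → ∀ x ∈ A i, ∀ y ∈ A j, y * x * y⁻¹ ∈ A i)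
    (hconn : (cayley (⋃ j, A j)).Connected) :
    copNumber (cayley (⋃ j, A j)) ≤ ∑ j, copNumber (own (A j)) ∧
    ∀ T : Finset (Fin (k + 1)), (∀ j ∈ T, ∀ x ∈ A j, ∀ y ∈ A j, y * x * y⁻¹ ∈ A j) →
      (copNumber (cayley (⋃ j, A j)) : ℝ) ≤
        ∑ j ∈ T, (2 * √(Nat.card (Subgroup.closure (A j)) : ℝ) + 1) +
        ∑ j ∈ Tᶜ, 81 * √(Nat.card (Subgroup.closure (A j)) : ℝ) *
          (Real.log (Nat.card (Subgroup.closure (A j))) + 1) ∧
      ((∀ j ∈ Tᶜ, (Nat.card (Subgroup.closure (A j)) : ℝ) * (Real.log (Nat.card Γ) + 1) ^ 2 ≤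
          Nat.card Γ) →
        (copNumber (cayley (⋃ j, A j)) : ℝ) ≤
          (3 * (T.card : ℝ) + 81 * (Tᶜ.card : ℝ)) * √(Nat.card Γ : ℝ)) := by
  classical
  have good : ∀ (k : ℕ) (A : Fin (k + 1) → Set Γ),
      (∀ i j, i < j → ∀ x ∈ A i, ∀ y ∈ A j, y * x * y⁻¹ ∈ A i) →
      Helper718.Cops.Good (Pool.Agent.H251R2.Cops.cayley (⋃ j, A j))
        (∑ j, copNumber (own (A j))) := by
    intro k
    induction k with
    | zero =>
      intro A _
      have h1 : (⋃ j, A j) = A 0 := by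
        ext x
        simp
      rw [h1, Fin.sum_univ_one]
      exact Helper718.Cops.good_cayley (le_refl _)
    | succ k ih =>
      intro A hA
      have h1 : (⋃ j, A j) = (⋃ j : Fin (k + 1), A j.castSucc) ∪ A (Fin.last _) := by
        ext x
        simp only [Set.mem_iUnion, Set.mem_union]
        constructor
        · rintro ⟨j, hj⟩
          revert hj
          refine Fin.lastCases (fun hj => Or.inr hj) (fun i hi => Or.inl ⟨i, hi⟩) j
        · rintro (⟨i, hi⟩ | h)
          · exact ⟨_, hi⟩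
          · exact ⟨_, h⟩
      rw [h1, Helper718.Cops.cayley_union, Fin.sum_univ_castSucc]
      refine Helper718.Cops.Good.union (Helper718.Cops.autEdges_cayley ?_)
        (ih (fun j => A j.castSucc) fun i j hij => hA _ _ (Fin.castSucc_lt_castSucc_iff.mpr hij))
        (Helper718.Cops.good_cayley (le_refl _))
      intro x hx y hy
      rw [Set.mem_iUnion] at hx ⊢
      obtain ⟨i, hi⟩ := hx
      exact ⟨i, hA _ _ (Fin.castSucc_lt_last i) x hi y hy⟩
  have h1 : copNumber (cayley (⋃ j, A j)) ≤ ∑ j, copNumber (own (A j)) :=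
    Helper718.Cops.Good.copNumber_le hconn (good k A hA)
  refine ⟨h1, fun T hT => ?_⟩
  have h2 : (copNumber (cayley (⋃ j, A j)) : ℝ) ≤ ∑ j, (copNumber (own (A j)) : ℝ) := by
    exact_mod_cast h1
  rw [← Finset.sum_add_sum_compl T] at h2
  have hT1 : ∀ j ∈ T, (copNumber (own (A j)) : ℝ) ≤
      2 * √(Nat.card (Subgroup.closure (A j)) : ℝ) + 1 := by
    intro j hj
    have h3 : copNumber (own (A j)) ≤ 2 * Nat.sqrt (Nat.card (Subgroup.closure (A j))) + 1 :=
      Helper718.Cops.normal_bound (hT j hj)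
    have h4 : ((Nat.sqrt (Nat.card (Subgroup.closure (A j))) : ℕ) : ℝ) ≤
        √(Nat.card (Subgroup.closure (A j)) : ℝ) := Real.nat_sqrt_le_real_sqrt
    have h5 : (copNumber (own (A j)) : ℝ) ≤
        ((2 * Nat.sqrt (Nat.card (Subgroup.closure (A j))) + 1 : ℕ) : ℝ) := by exact_mod_cast h3
    push_cast at h5
    linarith
  have hT2 : ∀ j ∈ Tᶜ, (copNumber (own (A j)) : ℝ) ≤
      81 * √(Nat.card (Subgroup.closure (A j)) : ℝ) *
          (Real.log (Nat.card (Subgroup.closure (A j))) + 1) := by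
    intro j _
    have := Fintype.ofFinite (Subgroup.closure (A j))
    have h3 := Pool.Agent.H594R2.Mey2.graph_bound (own (A j))
      (Helper718.Cops.part_connected (A j))
    rwa [← Nat.card_eq_fintype_card] at h3
  have hsum := add_le_add (Finset.sum_le_sum hT1) (Finset.sum_le_sum hT2)
  refine ⟨h2.trans hsum, fun hsmall => ?_⟩
  refine (h2.trans hsum).trans ?_
  have hn : (1 : ℝ) ≤ (Nat.card Γ : ℝ) := by exact_mod_cast (Nat.card_pos (α := Γ))
  have hsn : 1 ≤ √(Nat.card Γ : ℝ) := by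
    rw [Real.one_le_sqrt]
    exact hn
  have hle : ∀ j, (Nat.card (Subgroup.closure (A j)) : ℝ) ≤ (Nat.card Γ : ℝ) := by
    intro j
    exact_mod_cast Subgroup.card_le_card_group _
  have hb1 : ∀ j ∈ T, 2 * √(Nat.card (Subgroup.closure (A j)) : ℝ) + 1 ≤
      3 * √(Nat.card Γ : ℝ) := by
    intro j _
    have := Real.sqrt_le_sqrt (hle j)
    linarith
  have hb2 : ∀ j ∈ Tᶜ, 81 * √(Nat.card (Subgroup.closure (A j)) : ℝ) *
          (Real.log (Nat.card (Subgroup.closure (A j))) + 1) ≤ 81 * √(Nat.card Γ : ℝ) := by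
    intro j hj
    set m : ℝ := (Nat.card (Subgroup.closure (A j)) : ℝ) with hm
    have hm1 : (1 : ℝ) ≤ m := by
      rw [hm]
      exact_mod_cast (Nat.card_pos (α := Subgroup.closure (A j)))
    have hlog : 0 ≤ Real.log (Nat.card Γ : ℝ) := Real.log_nonneg hn
    have h3 : Real.log m + 1 ≤ Real.log (Nat.card Γ : ℝ) + 1 := by
      have := Real.log_le_log (by linarith) (hle j)
      linarith
    have h4 : √m * (Real.log (Nat.card Γ : ℝ) + 1) ≤ √(Nat.card Γ : ℝ) := by
      have h5 := Real.sqrt_le_sqrt (hsmall j hj)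
      rw [Real.sqrt_mul (by linarith), Real.sqrt_sq (by linarith)] at h5
      exact h5
    have h5 : √m * (Real.log m + 1) ≤ √m * (Real.log (Nat.card Γ : ℝ) + 1) :=
      mul_le_mul_of_nonneg_left h3 (Real.sqrt_nonneg _)
    rw [mul_assoc]
    linarith
  have hc1 := Finset.sum_le_card_nsmul T _ _ hb1
  have hc2 := Finset.sum_le_card_nsmul Tᶜ _ _ hb2
  simp only [nsmul_eq_mul] at hc1 hc2
  linarith

end Pool.Agent.Results.MP_964892_co.CayleyFiltrations
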