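import Pool.Agent.Helper718_near.Bound

set_option autoImplicit false

open scoped Classical

open N6ef48c04

namespace Pool.Agent.Results.MP_964892_co.RamanujanGraphs

open Pool.Agent.Y649.EX Pool.Agent.Helper718.Lossy

/-!
# The cop number of Ramanujan and nearly Ramanujan graphs

Let `G` be a connected `d`-regular graph, `d ≥ 3`, bipartite or not, on `n` vertices, whose
eigenvalues except `d` (and `-d`) have absolute value at most `2 √(d - 1) cosh η`, and
`τ = log n / log d`. Then
`c(G) ≤ K √n (1 + τ) exp (12 η τ)` with an absolute constant `K`. For `η = 0` these are the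
Ramanujan graphs.

Proof idea. Let `f j v` be the number of walks of length `j` without backtracking from a set `S` of
vertices to `v`. Then `f (j + 1) = M (f j) - (d - 1) f (j - 1)`, where `M` is the adjacency
operator. Let `y j` be the component of `f j` in the orthogonal complement of the constants (and of
the sign vector of the bipartition). It satisfies the identity
`|y (j+1)|² + (d-1) |y j|² - ⟨M y (j+1), y j⟩ = (d-1) (|y j|² + (d-1) |y (j-1)|² - ⟨M y j, y (j-1)⟩)`,
which yields `|y j| ≤ 8 j (√(d-1) exp η)^j √|S|`. By Cauchy and Schwarz the ball of radius `j`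
around `S` has at least `min (n / 4, (d - 1) ^ j |S| / (128 (j exp (η j)) ^ 2))` vertices. The balls
of radius `j` around vertices have at most `3 (d - 1) ^ j` vertices. So `G` is a near-optimal
expander up to a loss `Λ ≤ C (1 + τ) ^ 2 exp (24 η τ)` at the relevant radii. The strategy for
near-optimal expanders (teams of cops at random vertices, with growing horizons, see
`BoundedDegreeExpanders`) works with `O(√(Λ n))` cops.
-/

/-- Some number `k ≤ N` of cops have starting vertices from which they catch the robber, wherever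
he starts, within `m ≤ T` rounds; in particular the cop number is at most `N`. -/
def CatchBy {V : Type} [Fintype V] (G : SimpleGraph V) (N T : ℝ) : Prop :=
  (copNumber G : ℝ) ≤ N ∧
    ∃ k m : ℕ, (k : ℝ) ≤ N ∧ (m : ℝ) ≤ T ∧
      ∃ c : Fin k → V, ∀ r : V, CopsCatchWithin G k m c r

/-- `G` is `d`-regular, and for its adjacency operator `M` and `ρ = 2 √(d - 1) cosh η`,
`|M x|² ≤ ρ² |x|²` for all vectors `x` with sum `0` (case `A = V`), that is, all eigenvalues of `G`
but one (which is `d`) have absolute value at most `ρ`; or `G` is bipartite with a side `A`, and this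
holds for the vectors `x` whose sums over both sides are `0`, that is, for all eigenvalues but one
`d` and one `-d`. For `η = 0` these are the Ramanujan graphs. -/
def NearRamanujan {V : Type} [Fintype V] (G : SimpleGraph V) (d : ℕ) (η : ℝ) : Prop :=
  (∀ v, G.degree v = d) ∧ ∃ A : Finset V,
    (A = Finset.univ ∨ ∀ u v, G.Adj u v → (u ∈ A ↔ v ∉ A)) ∧
    ∀ x : V → ℝ, ∑ v ∈ A, x v = 0 → ∑ v ∈ Aᶜ, x v = 0 →
      ∑ v, (∑ w ∈ G.neighborFinset v, x w) ^ 2 ≤
        4 * ((d : ℝ) - 1) * Real.cosh η ^ 2 * ∑ v, x v ^ 2

/-- There is an absolute constant `K` such that the following holds for every connected `d`-regular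
graph `G` on `n` vertices, `d ≥ 3`, whose eigenvalues except `d` (and `-d`, if `G` is bipartite) have
absolute value at most `2 √(d - 1) cosh η`: with `τ = log n / log d`, the cop number of `G` is at most
`K √n (1 + τ) exp (12 η τ)`; so many cops can catch the robber within `K (log n + 1)` rounds. -/
theorem result : ∃ K : ℝ, ∀ (V : Type) [Fintype V] (G : SimpleGraph V) (d : ℕ) (η : ℝ),
    3 ≤ d → 0 ≤ η → NearRamanujan G d η →
    CatchBy G (K * √(Fintype.card V : ℝ) * (1 + Real.log (Fintype.card V) / Real.log d) *
        Real.exp (12 * η * (Real.log (Fintype.card V) / Real.log d)))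
      (K * (Real.log (Fintype.card V) + 1)) := by
  obtain ⟨K, -, hK⟩ := Pool.Agent.Helper718.Near.near
  refine ⟨K, fun V _ G d η hd3 hη ⟨hd, A, hA, hR⟩ => ?_⟩
  have key : ∀ χ : V → ℝ, Pool.Agent.Helper718.Ram.Sgn G d χ →
      (∀ x : V → ℝ, ∑ v, x v = 0 → ∑ v, χ v * x v = 0 →
        ∑ v ∈ A, x v = 0 ∧ ∑ v ∈ Aᶜ, x v = 0) →
      CatchBy G (K * √(Fintype.card V : ℝ) * (1 + Real.log (Fintype.card V) / Real.log d) *
          Real.exp (12 * η * (Real.log (Fintype.card V) / Real.log d)))
        (K * (Real.log (Fintype.card V) + 1)) := by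
    intro χ hχ hx
    obtain ⟨k, T, hk, hT, hw⟩ := hK V G d η χ hχ hd3 hη hd (fun x h1 h2 => by
      obtain ⟨h3, h4⟩ := hx x h1 h2
      have h5 := hR x h3 h4
      simp only [adj_eq]
      have h6 : 4 * ((d : ℝ) - 1) * Real.cosh η ^ 2 =
          ((d : ℝ) - 1) * (Real.exp η + 1 / Real.exp η) ^ 2 := by
        rw [Real.cosh_eq, Real.exp_neg, one_div]
        ring
      rw [h6] at h5
      exact h5)
    exact ⟨le_trans (by exact_mod_cast copNumber_le_of_winIn G k T hw) hk, k, T, hk, hT, hw⟩
  rcases hA with hA | hA
  · -- one side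
    refine key (fun _ => 0) ⟨fun v => ?_, by simp, fun v => by simp, fun f => by simp⟩
      fun x h1 _ => ?_
    · simp [Pool.Agent.Helper718.Ram.adj]
    · rw [hA]
      exact ⟨h1, by simp⟩
  · -- two sides
    set χ : V → ℝ := fun v => if v ∈ A then 1 else -1 with hχ
    have hadj : ∀ v, Pool.Agent.Helper718.Ram.adj G χ v = -(d * χ v) := by
      intro v
      have h1 : Pool.Agent.Helper718.Ram.adj G χ v = ∑ w, if G.Adj v w then -χ v else 0 := by
        refine Finset.sum_congr rfl fun w _ => ?_
        by_cases h : G.Adj v w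
        · rw [if_pos h, if_pos h]
          have h2 := hA v w h
          simp only [hχ]
          by_cases hv : v ∈ A
          · rw [if_pos hv, if_neg (h2.1 hv)]
          · have hw : w ∈ A := by
              by_contra hw
              exact hv (h2.2 hw)
            rw [if_neg hv, if_pos hw]
            norm_num
        · rw [if_neg h, if_neg h]
      rw [h1, Pool.Agent.Helper718.Ram.deg_sum G d hd v]
      ring
    have hsq : ∀ v, χ v ^ 2 = 1 := by
      intro v
      simp only [hχ]
      split_ifs <;> norm_num
    have hd3' : (3 : ℝ) ≤ d := by exact_mod_cast hd3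
    have hsum : ∑ v, χ v = 0 := by
      have h1 := Pool.Agent.Helper718.Ram.adj_sum G d hd χ
      rw [Finset.sum_congr rfl fun v _ => hadj v, Finset.sum_neg_distrib, ← Finset.mul_sum] at h1
      nlinarith
    refine key χ ⟨hadj, hsum, fun v => ?_, fun f => ?_⟩ fun x h1 h2 => ?_
    · simp only [hχ]
      split_ifs <;> simp
    · rw [Finset.sum_congr rfl fun v _ => hsq v]
      simp
    · have h3 : ∑ v, x v = ∑ v ∈ A, x v + ∑ v ∈ Aᶜ, x v := (Finset.sum_add_sum_compl A x).symm
      have h4 : ∑ v, χ v * x v = ∑ v ∈ A, x v - ∑ v ∈ Aᶜ, x v := by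
        rw [← Finset.sum_add_sum_compl A]
        have h5 : ∑ v ∈ A, χ v * x v = ∑ v ∈ A, x v := by
          refine Finset.sum_congr rfl fun v hv => ?_
          simp only [hχ]
          rw [if_pos hv, one_mul]
        have h6 : ∑ v ∈ Aᶜ, χ v * x v = - ∑ v ∈ Aᶜ, x v := by
          rw [← Finset.sum_neg_distrib]
          refine Finset.sum_congr rfl fun v hv => ?_
          simp only [hχ]
          rw [if_neg (Finset.mem_compl.1 hv)]
          ring
        rw [h5, h6]
        ring
      rw [h1] at h3
      rw [h2] at h4
      constructor <;> linarith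

end Pool.Agent.Results.MP_964892_co.RamanujanGraphs
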